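import Pool.Agent.H741.RS.Stm

/-!
# Project RS (MP_9c6456_an): GEN, a kernel with symmetry group `G`
-/

set_option autoImplicit false
open scoped ComplexConjugate

namespace Pool.Agent.H741.RS

/-- if `κ` is equivariant, invariance of the kernel is invariance of the vector -/
theorem GEN_inv {n : ℕ} {E : Type} [NormedAddCommGroup E] [InnerProductSpace ℝ E]
    (R : Rep n E) (κ : E →ₗ[ℝ] (V n → V n → ℂ)) (hinj : Function.Injective κ)
    (h : ∀ (U : V n ≃ₗᵢ[ℂ] V n) (x : E) (z w : V n), κ (R.ρ U x) (U z) (U w) = κ x z w)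
    (U : V n ≃ₗᵢ[ℂ] V n) (x : E) : Inv (κ x) U ↔ R.ρ U x = x := by
  constructor
  · intro hI
    apply hinj
    funext z w
    have h1 := h U x (U.symm z) (U.symm w)
    have h2 := hI (U.symm z) (U.symm w)
    rw [LinearIsometryEquiv.apply_symm_apply, LinearIsometryEquiv.apply_symm_apply] at h1 h2
    rw [h1, h2]
  · intro hx z w
    have h1 := h U x z w
    rw [hx] at h1
    exact h1

theorem t_GEN (h1 : S_GOOD) (h2 : S_SLICE) (h3 : S_REPK) (h4 : S_MISS) (h5 : S_BIC) : S_GEN := by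
  intro n k G fG hn hk hSep
  obtain ⟨h, hG⟩ := h1 n G fG
  obtain ⟨E, i1, i2, i3, R, κ, κinj, κ1, κ2, κ3⟩ := h3 n k
  obtain ⟨x, hx1, hx2⟩ := h2 n G fG h hG E i1 i2 i3 R
  have key := GEN_inv R κ κinj κ3
  refine ⟨h, κ x, hG.sa, (κ1 x).1, (κ1 x).2, fun g hg => ⟨(key g x).2 (hx1 g hg), hG.cm g hg⟩,
    fun U hU hI => ?_⟩
  have hfix := hx2 U hU ((key U x).1 hI)
  have hall : ∀ u : V n → V n → ℂ, Herm u → AKer k u → (∀ g ∈ G, Inv u g) → Inv u U := by
    intro u hu hA hg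
    obtain ⟨y, rfl⟩ := κ2 u hu hA
    exact (key U y).2 (hfix y fun g hgG => (key g y).1 (hg g hgG))
  obtain ⟨c, hc⟩ := h5 n k G fG U (h4 n k G fG U hn hk hall)
  exact hSep U ⟨c, hc⟩

end Pool.Agent.H741.RS
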